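import Pool.Agent.Lib.TNF.AL.Spec
import Pool.Agent.Lib.TATE.Asm.Cc

/-!
# PROJECT TNF, AL: the second part of `HC.CC.Main` (any branch points)
-/

set_option autoImplicit false

open Topology Metric

noncomputable section

namespace TNF.AL

open HC HC.CC SEJ SEB SEQ TATE

open TATE.Cc_aux in
theorem tAlg : S_Alg := by
  rintro ⟨M, hM, H⟩ T q N R j m r t b E hcv hti hnew g hgb hgr d C hr hk hPQ
  -- the point of the zero-dimensional space
  obtain ⟨s, hs⟩ : ∃ s : Fin 0 → ℂ, s ∉ M 0 := by
    obtain ⟨s, hs⟩ := (dense_of_mem_residual (hM 0)).nonempty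
    exact ⟨s, hs⟩
  have hH : IsHodge T d C := SEN.tn25 T d C hr hk
  have hHdg : IsHdg C := by
    refine ⟨hH.1, fun u hu a a' ha => ?_⟩
    have h1 := congrArg (fun c : Hlg T d => c a) (hH.2 u hu)
    have h2 : a' = fun i => HC.pull (u • LinearMap.id) (a i) := by
      funext i
      ext v
      exact ha i v
    rw [h2]
    exact h1
  refine H 0 s hs nul nul T 0 (fun i => i.elim0) (fun v => v) (fun i => i.elim0) nul_cm
    (fun i => i.elim0) ⟨⟨fun _ _ => rfl, fun _ _ => rfl⟩, fun i => i.elim0, ?_, ?_⟩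
    q N R j (fun i v => (E i).Z v) (fun i u v => (E i).ψ u v) (fun _ => 0) (fun n v => g n v)
    (fun i => ?_) (fun i => ?_) ⟨⟨fun _ _ => (add_zero _).symm, fun _ _ => (smul_zero _).symm⟩,
      fun n => (g n).isLinear, ?_, ?_⟩ d C hHdg ?_
  · constructor
    · intro v w _
      exact Subsingleton.elim v w
    · rintro ⟨x, y⟩
      refine ⟨x, Prod.ext rfl ?_⟩
      funext i
      exact i.elim0
  · intro v hv
    exact ⟨hv, fun i => i.elim0⟩
  · obtain ⟨h1, h2, h3, h4⟩ := hcv i
    exact ⟨m i, Or.inr ⟨r i, t i, b i, h1, ⟨by omega, hti i, h2, h3, h4⟩, hnew i⟩⟩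
  · exact ⟨fun u => ((E i).ψ u).isLinear, fun u v hu hv => (E i).int u hu v hv, (E i).alt,
      (E i).cpx, (E i).pos, (E i).inv⟩
  · constructor
    · intro v w hvw
      exact hgb.1 (congrArg Prod.snd hvw)
    · rintro ⟨x, y⟩
      obtain ⟨v, hv⟩ := hgb.2 y
      exact ⟨v, Prod.ext (Subsingleton.elim _ _) hv⟩
  · intro v hv
    exact ⟨⟨1, one_ne_zero, trivial⟩, hgr v hv⟩
  · intro P Q hPQ' X hX a a' ha
    let P' : Tup R := fun i => IsLinearMap.mk' (P i) (hPQ' i).1.1
    let Q' : Tup R := fun i => IsLinearMap.mk' (Q i) (hPQ' i).2.1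
    have hP : ∀ i, IsU (E i) (P' i) := fun i => ⟨fun v => (hPQ' i).1.2.1 v,
      fun u v => (hPQ' i).1.2.2 u v⟩
    have hQ : ∀ i, IsU (E i) (Q' i) := fun i => ⟨fun v => (hPQ' i).2.2.1 v,
      fun u v => (hPQ' i).2.2.2 u v⟩
    have hX' : ∀ v n, g n (X v) = P' (j n) (Q' (j n) (g n v)) - Q' (j n) (P' (j n) (g n v)) :=
      fun v n => (hX v).2 n
    have hXl : IsLinearMap ℝ X := by
      constructor
      · intro u v
        refine hgb.1 (funext fun n => ?_)
        change g n (X (u + v)) = g n (X u + X v)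
        rw [map_add, hX', hX', hX', map_add, map_add, map_add, map_add, map_add]
        abel
      · intro c v
        refine hgb.1 (funext fun n => ?_)
        change g n (X (c • v)) = g n (c • X v)
        have hgc : ∀ w, g n (c • w) = c • g n w := fun w => by
          rw [← Complex.coe_smul, map_smul, Complex.coe_smul]
        rw [hgc, hX', hX', hgc, map_smul, map_smul, map_smul, map_smul, smul_sub]
    have h1 := hPQ P' Q' hP hQ (IsLinearMap.mk' X hXl) hX' a
    rw [← h1]
    unfold der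
    refine Finset.sum_congr rfl fun i _ => ?_
    have h2 : a' i = a i ∘ₗ (IsLinearMap.mk' X hXl) := LinearMap.ext fun v => ha i v
    rw [h2]
    rfl

end TNF.AL
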