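import Pool.Agent.Lib.TNF.AL.Spec
import Pool.Agent.Lib.TATE.Asm.Av

/-!
# PROJECT TNF, AL: the new parts exist
-/

set_option autoImplicit false

open Topology Metric

noncomputable section

namespace TNF.AL

open HC HC.CC SEJ SEB SEQ TATE

open TATE.Av_aux in
theorem tAvZ : StmtFA3 → StmtFA4 → S_AvZ := by
  intro h3 h4 p N D s h hs
  have ht := inj_t D s h hs
  have hJ : ∀ n, ∃ (T : AV) (Z : T.V → T.V), IsNew T (D.m n) Z (D.t s n) (D.b n) := fun n =>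
    h4 (D.m n) (D.r n) (D.b n) (D.t s n) (h.cv n) (by have := h.r3 n; omega) (ht n)
  choose J Z hZ using hJ
  have hκ : ∀ n, ∃ κ : (J n).V ≃ₗ[ℂ] (Ix (D.m n) (D.b n) → ℂ),
      κ '' {v | Rt (J n) v} = LQ (D.m n) (D.b n) (D.t s n) ∧
      ∀ v, κ (Z n v) = Zd (D.m n) (D.b n) (κ v) := by
    intro n
    obtain ⟨γ, hγ⟩ := mp_of_new (hZ n)
    obtain ⟨κ, h6, -, h5, -⟩ := h3 (J n) (D.m n) (D.r n) (Z n) (D.t s n) (D.b n) γ (h.cv n)
      (ht n) (hZ n).cyc (hZ n).dim hγ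
    exact ⟨κ, h5, h6⟩
  choose κ hκ hκ' using hκ
  exact ⟨J, Z, κ, hZ, hκ', hκ⟩

end TNF.AL
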