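import Pool.Agent.Lib.TNF.AL.Spec
import Pool.Agent.Lib.SE.CC.Cy

/-!
# PROJECT TNF, AL: the form of the local system on the new part
-/

set_option autoImplicit false

open Topology Metric

noncomputable section

namespace TNF.AL

open HC HC.CC SEJ SEB SEQ TATE

namespace Cyf_aux

/-- A common denominator of a rational form on a finitely generated lattice. -/
theorem den {V : Type} [AddCommGroup V] [Module ℝ V] (L : Submodule ℤ V) (hL : L.FG)
    (B : V →ₗ[ℝ] V →ₗ[ℝ] ℝ) (h : ∀ u ∈ L, ∀ v ∈ L, ∃ x : ℚ, B u v = x) :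
    ∃ N : ℕ, N ≠ 0 ∧ ∀ u ∈ L, ∀ v ∈ L, ∃ n : ℤ, (N : ℝ) * B u v = n := by
  classical
  obtain ⟨S, hS⟩ := hL
  obtain ⟨q, hq⟩ : ∃ q : V → V → ℚ, ∀ u ∈ L, ∀ v ∈ L, B u v = q u v := by
    refine ⟨fun u v => if h' : u ∈ L ∧ v ∈ L then (h u h'.1 v h'.2).choose else 0,
      fun u hu v hv => ?_⟩
    simp only [dif_pos (And.intro hu hv)]
    exact (h u hu v hv).choose_spec
  have hSL : ∀ u ∈ S, u ∈ L := fun u hu => hS ▸ Submodule.subset_span hu
  refine ⟨∏ u ∈ S, ∏ v ∈ S, (q u v).den, ?_, ?_⟩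
  · exact Finset.prod_ne_zero_iff.2 fun u _ => Finset.prod_ne_zero_iff.2 fun v _ => (q u v).den_nz
  have h1 : ∀ u ∈ S, ∀ v ∈ S, ∃ n : ℤ,
      ((∏ u ∈ S, ∏ v ∈ S, (q u v).den : ℕ) : ℝ) * B u v = n := by
    intro u hu v hv
    have h2 : (q u v).den ∣ ∏ u ∈ S, ∏ v ∈ S, (q u v).den :=
      (Finset.dvd_prod_of_mem (fun v => (q u v).den) hv).trans
        (Finset.dvd_prod_of_mem (fun u => ∏ v ∈ S, (q u v).den) hu)
    obtain ⟨k, hk⟩ := h2
    refine ⟨k * (q u v).num, ?_⟩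
    rw [hk, hq u (hSL u hu) v (hSL v hv)]
    have h3 : ((q u v).den : ℝ) * (q u v : ℝ) = ((q u v).num : ℝ) := by
      have h4 : (q u v) * ((q u v).den : ℚ) = ((q u v).num : ℚ) := Rat.mul_den_eq_num (q u v)
      have h5 : ((q u v * ((q u v).den : ℚ) : ℚ) : ℝ) = (((q u v).num : ℚ) : ℝ) := by rw [h4]
      push_cast at h5
      rw [mul_comm]
      exact h5
    push_cast
    rw [← h3]
    ring
  have h2 : ∀ u ∈ S, ∀ v ∈ L, ∃ n : ℤ,
      ((∏ u ∈ S, ∏ v ∈ S, (q u v).den : ℕ) : ℝ) * B u v = n := by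
    intro u hu v hv
    rw [← hS] at hv
    induction hv using Submodule.span_induction with
    | mem v hv => exact h1 u hu v hv
    | zero => exact ⟨0, by rw [map_zero, mul_zero, Int.cast_zero]⟩
    | add v w _ _ ihv ihw =>
      obtain ⟨a, ha⟩ := ihv
      obtain ⟨b, hb⟩ := ihw
      exact ⟨a + b, by rw [map_add, mul_add, ha, hb, Int.cast_add]⟩
    | smul x v _ ih =>
      obtain ⟨a, ha⟩ := ih
      refine ⟨x * a, ?_⟩
      rw [map_zsmul, zsmul_eq_mul, Int.cast_mul, ← ha]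
      ring
  intro u hu v hv
  rw [← hS] at hu
  induction hu using Submodule.span_induction with
  | mem u hu => exact h2 u hu v hv
  | zero => exact ⟨0, by rw [map_zero, LinearMap.zero_apply, mul_zero, Int.cast_zero]⟩
  | add u w _ _ ihu ihw =>
    obtain ⟨a, ha⟩ := ihu
    obtain ⟨b, hb⟩ := ihw
    exact ⟨a + b, by rw [map_add, LinearMap.add_apply, mul_add, ha, hb, Int.cast_add]⟩
  | smul x u _ ih =>
    obtain ⟨a, ha⟩ := ih
    refine ⟨x * a, ?_⟩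
    rw [map_zsmul, LinearMap.smul_apply, zsmul_eq_mul, Int.cast_mul, ← ha]
    ring

end Cyf_aux

open Cyf_aux in
theorem tCyf : S_Cyf := by
  intro m r b Φ t ht T Z κ hZ hκZ hκ
  obtain ⟨Z', hZ', hlat, hcyc⟩ := tCy T m Z hZ
  have hfg : T.L.FG := by
    have h1 : Module.Finite ℤ T.L := ZLattice.module_finite ℝ T.L
    exact Module.Finite.iff_fg.1 h1
  let κR : T.V →ₗ[ℝ] (Ix m b → ℂ) := (κ : T.V →ₗ[ℂ] (Ix m b → ℂ)).restrictScalars ℝ
  let B : T.V →ₗ[ℝ] T.V →ₗ[ℝ] ℝ := (Φ.E t).compl₁₂ κR κR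
  have hB : ∀ u v, B u v = Φ.E t (κ u) (κ v) := fun u v => rfl
  have hin : ∀ u ∈ T.L, κ u ∈ LQ m b t := by
    intro u hu
    rw [← hκ]
    exact ⟨u, ⟨1, one_ne_zero, by rw [one_smul]; exact hu⟩, rfl⟩
  obtain ⟨N, hN, hNB⟩ := den T.L hfg B fun u hu v hv => Φ.rat t ht _ (hin u hu) _ (hin v hv)
  have hNpos : (0 : ℝ) < N := Nat.cast_pos.2 (Nat.pos_of_ne_zero hN)
  refine ⟨N, ⟨Z', hlat, hcyc, (N : ℝ) • B, fun u hu v hv => ?_, fun u v => ?_, fun u v => ?_,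
    fun v hv => ?_, fun u v => ?_⟩, hN, hZ', fun u v => ?_⟩
  · exact hNB u hu v hv
  · change (N : ℝ) * B u v = -((N : ℝ) * B v u)
    rw [hB, hB, Φ.alt t ht]
    ring
  · change (N : ℝ) * B (Complex.I • u) (Complex.I • v) = (N : ℝ) * B u v
    rw [hB, hB, κ.map_smul, κ.map_smul, Φ.cpx t ht]
  · change 0 < (N : ℝ) * B (Complex.I • v) v
    rw [hB, κ.map_smul]
    exact mul_pos hNpos (Φ.pos t ht _ fun h => hv (κ.map_eq_zero_iff.1 h))
  · change (N : ℝ) * B (Z' u) (Z' v) = (N : ℝ) * B u v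
    rw [hB, hB, hZ', hZ', hκZ, hκZ, Φ.inv t ht]
  · rfl

end TNF.AL
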