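import Pool.Agent.Lib.TNF.AL.SpecH
import Pool.Agent.Lib.TATE.Asm.Ht
import Pool.Agent.Lib.SE.T.Jn
import Pool.Agent.Lib.SE.N.n0
import Pool.Agent.Lib.SE.N.n1
import Pool.Agent.Lib.SE.N.n2
import Pool.Agent.Lib.SE.N.n4
import Pool.Agent.Lib.SE.N.n5
import Pool.Agent.Lib.SE.N.n6
import Pool.Agent.Lib.SE.N.n7
import Pool.Agent.Lib.SE.N.n8
import Pool.Agent.Lib.SE.N.n9
import Pool.Agent.Lib.SE.CC.New
import Pool.Agent.Lib.SE.CC.Cy
import Pool.Agent.Lib.SE.CC.Cur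
import Pool.Agent.Lib.SE.Q.TrS
import Pool.Agent.Lib.SE.Q.TrJ
import Pool.Agent.Lib.SE.T.Cutg
import Pool.Agent.Lib.SE.Big.Gw

/-!
# PROJECT TNF, AL: the Hodge Lie algebra of very general new parts, for given forms
-/

set_option autoImplicit false

open Topology Metric

noncomputable section

namespace TNF.AL

open HC HC.CC SEJ SEB SEQ TATE



open TATE.Ht_aux in
/-- **HtE**. -/
theorem tHtE : S_HtE := by
  obtain ⟨X, hX, hJ⟩ := SET.tJng MMx SEB.tMx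
  refine ⟨X, hX, ?_⟩
  intro p s hs q D hok R Z hN hne E hEE
  obtain ⟨hinj, hMM, -, hI⟩ := hJ p s hs
  have hN' : ∀ n, ∃ N : HC.SE.New (R n) (D.m n) (D.t s n) (D.b n), ∀ v, N.Z v = Z n v :=
    fun n => HC.CC.tNew tCy tCur (R n) (D.m n) (Z n) (D.r n) (D.t s n) (D.b n) (hN n)
  choose N hNZ using hN'
  have hkk : ∀ n, SEZ.Okk (D.i n) (D.k n) := fun n => ⟨hok.inj n, hok.lt n⟩
  have hcov : ∀ n, HC.SE.IsCov (D.m n) (D.t s n) (D.b n) := fun n => by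
    obtain ⟨h1, h2, h3, h4⟩ := hok.cv n
    exact ⟨h1, pt_inj hinj (hok.inj n) (D.k n), h2, h3, h4⟩
  have hm : ∀ n, 3 ≤ D.m n := fun n => (hok.cv n).1
  have hW : ∀ n, HypW (D.m n) (D.r n) (D.b n) := fun n => by
    obtain ⟨u, hu, huc, h1, h2⟩ := hok.ndf n
    have h3 := tSg (D.m n) (D.r n) (D.t s n) (D.b n) (hcov n) u hu huc
    refine ⟨u, hu, huc, h1, ?_⟩
    have h4 : sg (D.m n) (D.r n) (D.b n) u < D.r n := h2
    omega
  have hEZ : ∀ n, (E n).Z = (N n).Z := fun n =>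
    LinearMap.ext fun v => (hEE n v).trans (hNZ n v).symm
  have hg : ∀ n, SEG.GFw (E n) (D.r n) ∧
      ∀ u : (ZMod (D.m n))ˣ, (E n).p u = sg (D.m n) (D.r n) (D.b n) (u : ZMod (D.m n)).val :=
    fun n => by
      have h1 := hMM (D.m n) (D.r n) (D.b n) (D.i n) (D.k n) (hkk n)
      rw [← pt_eq] at h1
      obtain ⟨h2, -, h3, -⟩ := gfw_of_MMx (hok.r3 n) (hW n) (hcov n) h1 (N n) (E n) (hEZ n)
      exact ⟨h2, h3⟩
  refine ⟨fun n u => (hg n).2 u, fun h hh X hX => ?_⟩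
  have hHT : SEN.HTN (fun n => SEN.triv (E n) (hm n)) := by
    refine SEN.tn8 SEN.tn7 q R D.m E _ hm (fun n => ?_) (fun i j hij h hh s' t' => ?_)
    · intro k hk _ F hF
      refine (hg n).1.hit k hk F fun s' hs' hn => ?_
      have h1 := (hF s' hs' 1 (Subgroup.one_mem _)).2
      rw [one_mul] at h1
      exact h1 hn
    · have c1 := hcov i
      have c2 := hcov j
      have h1 := hI (D.m i) (D.r i) (D.b i) (D.m j) (D.r j) (D.b j) (D.i i) (D.k i) (D.i j)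
        (D.k j) (hkk i) (hkk j) (by have := hok.r3 i; omega) (by have := hok.r3 j; omega)
        (hW i) (hW j)
      rw [← pt_eq, ← pt_eq] at h1
      exact ((h1 c1 c2 (R i) (R j) (N i) (N j) (E i) (E j) (hEZ i) (hEZ j)).resolve_left
        (hne i j hij)) h hh s' t'
  exact SEN.tn9 (SEN.tn2 SEN.tn0 SEN.tn1) SEN.tn4 SEN.tn5 SEN.tn6 q R D.m E _ hm hHT h hh X hX
    (fun n g hg v => rfl)

end TNF.AL
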