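import Pool.Agent.Lib.TNF.AL.SpecH
import Pool.Agent.Lib.TATE.Asm.Ht2

/-! # PROJECT TNF, AL: two very general points, for given forms -/

set_option autoImplicit false

open Topology Metric

noncomputable section

namespace TNF.AL

open HC HC.CC SEJ SEB SEQ TATE

namespace HtE2_aux

open TATE.Ht2_aux (pt_lft pt_rgt core isg_symm)

/-- The data of one factor. -/
structure Fac (p : ℕ) where
  m : ℕ
  r : ℕ
  i : Fin (r + 1) → Fin p
  k : Option (Fin p)
  b : Fin (r + 1) → ℕ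
  R : AV
  Z : R.V → R.V
  E : Cyc R m

/-- The conditions on one factor at the point `s`. -/
structure FOk {p : ℕ} (s : Fin p → ℂ) (F : Fac p) : Prop where
  inj : Function.Injective F.i
  lt : ∀ l, F.k = some l → ∀ j, F.i j < l
  cv : Cvb F.m F.b
  r3 : 3 ≤ F.r
  ndf : Ndf F.m F.b
  nw : IsNew F.R F.m F.Z (pt s F.i F.k) F.b
  ez : ∀ v, F.E.Z v = F.Z v

/-- A factor at the first point. -/
def lft {p : ℕ} (F : Fac p) : Fac (p + p) :=
  { m := F.m, r := F.r, i := fun j => Fin.castAdd p (F.i j), k := F.k.map (Fin.castAdd p),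
    b := F.b, R := F.R, Z := F.Z, E := F.E }

/-- A factor at the second point. -/
def rgt {p : ℕ} (F : Fac p) : Fac (p + p) :=
  { m := F.m, r := F.r, i := fun j => Fin.natAdd p (F.i j), k := F.k.map (Fin.natAdd p),
    b := F.b, R := F.R, Z := F.Z, E := F.E }

theorem lft_ok {p : ℕ} {s s' : Fin p → ℂ} {F : Fac p} (h : FOk s F) :
    FOk (Fin.append s s') (lft F) := by
  refine ⟨fun a b hab => h.inj (Fin.castAdd_injective p p hab), fun l hl j => ?_, h.cv, h.r3,
    h.ndf, ?_, h.ez⟩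
  · obtain ⟨l', hl', rfl⟩ := Option.map_eq_some_iff.mp hl
    exact (h.lt l' hl' j : (F.i j : ℕ) < (l' : ℕ))
  · have := pt_lft s s' F.i F.k
    change IsNew F.R F.m F.Z
      (pt (Fin.append s s') (fun j => Fin.castAdd p (F.i j)) (F.k.map (Fin.castAdd p))) F.b
    rw [this]
    exact h.nw

theorem rgt_ok {p : ℕ} {s s' : Fin p → ℂ} {F : Fac p} (h : FOk s' F) :
    FOk (Fin.append s s') (rgt F) := by
  refine ⟨fun a b hab => h.inj (Fin.natAdd_injective p p hab), fun l hl j => ?_, h.cv, h.r3,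
    h.ndf, ?_, h.ez⟩
  · obtain ⟨l', hl', rfl⟩ := Option.map_eq_some_iff.mp hl
    exact Nat.add_lt_add_left (h.lt l' hl' j : (F.i j : ℕ) < (l' : ℕ)) p
  · have := pt_rgt s s' F.i F.k
    change IsNew F.R F.m F.Z
      (pt (Fin.append s s') (fun j => Fin.natAdd p (F.i j)) (F.k.map (Fin.natAdd p))) F.b
    rw [this]
    exact h.nw

/-- The discrete data. -/
def dat {p q : ℕ} (G : Fin q → Fac p) : Dt p q :=
  { m := fun n => (G n).m, r := fun n => (G n).r, i := fun n => (G n).i, k := fun n => (G n).k,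
    b := fun n => (G n).b }

theorem dat_ok {p q : ℕ} {G : Fin q → Fac p} {s : Fin p → ℂ} (h : ∀ n, FOk s (G n)) :
    (dat G).ok :=
  ⟨fun n => (h n).inj, fun n => (h n).lt, fun n => (h n).cv, fun n => (h n).r3,
    fun n => (h n).ndf⟩

/-- The conclusion. -/
def Cn {p q q' : ℕ} (F : Fin q → Fac p) (F' : Fin q' → Fac p) : Prop :=
  ∀ h, HLP (fun n => (F n).E) (fun n => (F' n).E) h → ∀ X : Tup fun n => (F n).R,
    (∀ n, IsSU (F n).E (X n)) →
      ((X, 0) : (Tup fun n => (F n).R) × (Tup fun n => (F' n).R)) ∈ Submodule.span ℝ h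

theorem main {X : (p : ℕ) → Set (Fin p → ℂ)}
    (H : ∀ (p : ℕ) (s : Fin p → ℂ), s ∉ X p →
      ∀ (q : ℕ) (D : Dt p q), D.ok → ∀ (R : Fin q → AV) (Z : ∀ n, (R n).V → (R n).V),
      (∀ n, IsNew (R n) (D.m n) (Z n) (D.t s n) (D.b n)) →
      (∀ n n', n ≠ n' → ¬ Isg (R n) (R n')) →
      ∀ E : ∀ n, Cyc (R n) (D.m n), (∀ n v, (E n).Z v = Z n v) →
        (∀ n (u : (ZMod (D.m n))ˣ), (E n).p u =
        sg (D.m n) (D.r n) (D.b n) (u : ZMod (D.m n)).val) ∧
        ∀ h, HLieT E h → ∀ X : Tup R, (∀ n, IsSU (E n) (X n)) → X ∈ Submodule.span ℝ (ComT h))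
    {p q q' : ℕ} (s s' : Fin p → ℂ) (hs : Fin.append s s' ∉ X (p + p)) (F : Fin q → Fac p)
    (F' : Fin q' → Fac p) (hF : ∀ n, FOk s (F n)) (hF' : ∀ n, FOk s' (F' n))
    (h1 : ∀ n n', n ≠ n' → ¬ Isg (F n).R (F n').R)
    (h2 : ∀ n n', n ≠ n' → ¬ Isg (F' n).R (F' n').R)
    (h3 : ∀ n n', ¬ Isg (F n).R (F' n').R) :
    Cn F F' := by
  obtain ⟨G, hG⟩ : ∃ G : Fin (q + q') → Fac (p + p),
      G = fun n => Fin.addCases (fun a => lft (F a)) (fun a => rgt (F' a)) n := ⟨_, rfl⟩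
  have hl : ∀ a, G (Fin.castAdd q' a) = lft (F a) := by
    intro a
    rw [hG]
    exact Fin.addCases_left a
  have hr : ∀ a, G (Fin.natAdd q a) = rgt (F' a) := by
    intro a
    rw [hG]
    exact Fin.addCases_right a
  have hok : ∀ n, FOk (Fin.append s s') (G n) := by
    intro n
    refine Fin.addCases (fun a => ?_) (fun a => ?_) n
    · rw [hl]
      exact lft_ok (hF a)
    · rw [hr]
      exact rgt_ok (hF' a)
  have hne : ∀ n n', n ≠ n' → ¬ Isg (G n).R (G n').R := by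
    intro n n'
    refine Fin.addCases (fun a => ?_) (fun a => ?_) n
    · refine Fin.addCases (fun b => ?_) (fun b => ?_) n'
      · intro hab
        rw [hl, hl]
        exact h1 a b fun h => hab (by rw [h])
      · intro hab
        rw [hl, hr]
        exact h3 a b
    · refine Fin.addCases (fun b => ?_) (fun b => ?_) n'
      · intro hab
        rw [hl, hr]
        exact fun h => h3 b a (isg_symm h)
      · intro hab
        rw [hr, hr]
        exact h2 a b fun h => hab (by rw [h])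
  obtain ⟨-, hE⟩ := H (p + p) (Fin.append s s') hs (q + q') (dat G) (dat_ok hok)
    (fun n => (G n).R) (fun n => (G n).Z) (fun n => (hok n).nw) hne (fun n => (G n).E)
    (fun n => (hok n).ez)
  have h4 : Cn (fun n => G (Fin.castAdd q' n)) (fun n => G (Fin.natAdd q n)) :=
    fun h hh X hX => core (fun n => (G n).R) (fun n => (G n).m) (fun n => (G n).E) hE h hh X hX
  have h5 : (fun n => G (Fin.castAdd q' n)) = fun n => lft (F n) := funext hl
  have h6 : (fun n => G (Fin.natAdd q n)) = fun n => rgt (F' n) := funext hr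
  rw [h5, h6] at h4
  exact h4

end HtE2_aux

open HtE2_aux

theorem tHtE2 : S_HtE → S_HtE2 := by
  rintro ⟨X, hX, H⟩ p
  refine ⟨(Fin.appendHomeomorph (X := ℂ) p p) ⁻¹' X (p + p),
    (hX (p + p)).preimage_of_isOpenMap (Fin.appendHomeomorph (X := ℂ) p p).continuous
      (Fin.appendHomeomorph (X := ℂ) p p).isOpenMap, ?_⟩
  intro x hx q q' D D' hD hD' R R' Z Z' hN hN' h1 h2 h3 E E' hE hE'
  exact main H x.1 x.2 hx
    (fun n => ⟨D.m n, D.r n, D.i n, D.k n, D.b n, R n, Z n, E n⟩)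
    (fun n => ⟨D'.m n, D'.r n, D'.i n, D'.k n, D'.b n, R' n, Z' n, E' n⟩)
    (fun n => ⟨hD.inj n, hD.lt n, hD.cv n, hD.r3 n, hD.ndf n, hN n, hE n⟩)
    (fun n => ⟨hD'.inj n, hD'.lt n, hD'.cv n, hD'.r3 n, hD'.ndf n, hN' n, hE' n⟩) h1 h2 h3

end TNF.AL
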