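import Pool.Agent.Lib.TNF.AL.SpecR
import Mathlib.Analysis.Calculus.ContDiff.FiniteDimension
import Mathlib.Analysis.Complex.CauchyIntegral
import Mathlib.Analysis.Analytic.Uniqueness

/-!
# PROJECT TNF, AL: the identity theorem for the complex structures
-/

set_option autoImplicit false

open Topology Metric

noncomputable section

namespace TNF.AL

open HC HC.CC SEJ SEB SEQ TATE

namespace Idt_aux

open scoped ContDiff

theorem inv_an {V V' : Type} [NormedAddCommGroup V] [NormedSpace ℝ V] [FiniteDimensional ℝ V]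
    [NormedAddCommGroup V'] [NormedSpace ℝ V'] [FiniteDimensional ℝ V'] {I : Set ℝ} (hI : IsOpen I)
    (τ : ℝ → (V ≃ₗ[ℝ] V')) (hτ : ∀ v, AnalyticOnNhd ℝ (fun x => τ x v) I) (u : ℝ → V')
    (hu : AnalyticOnNhd ℝ u I) : AnalyticOnNhd ℝ (fun x => (τ x).symm (u x)) I := by
  have hcV : CompleteSpace V := FiniteDimensional.complete ℝ V
  have hcV' : CompleteSpace V' := FiniteDimensional.complete ℝ V'
  let A : ℝ → (V →L[ℝ] V') := fun x => ((τ x).toContinuousLinearEquiv : V →L[ℝ] V')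
  have h1 : ContDiffOn ℝ ω A I := by
    rw [contDiffOn_clm_apply]
    intro v x hx
    exact (hτ v x hx).contDiffAt.contDiffWithinAt
  intro x hx
  have h1' : AnalyticAt ℝ A x := (h1.contDiffAt (hI.mem_nhds hx)).analyticAt
  have h2 : AnalyticAt ℝ (ContinuousLinearMap.inverse : (V →L[ℝ] V') → (V' →L[ℝ] V)) (A x) :=
    (contDiffAt_map_inverse (𝕜 := ℝ) (n := ω) (τ x).toContinuousLinearEquiv).analyticAt
  have h3 : AnalyticAt ℝ (fun x => ContinuousLinearMap.inverse (A x)) x := h2.comp h1'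
  have h4 : AnalyticAt ℝ (fun x => ContinuousLinearMap.inverse (A x) (u x)) x :=
    (h3.contDiffAt.clm_apply (hu x hx).contDiffAt).analyticAt
  have e : ∀ y, (τ y).symm (u y) = ContinuousLinearMap.inverse (A y) (u y) := by
    intro y
    change _ = ContinuousLinearMap.inverse ((τ y).toContinuousLinearEquiv : V →L[ℝ] V') (u y)
    rw [ContinuousLinearMap.inverse_equiv]
    rfl
  have e' : (fun x => (τ x).symm (u x)) = fun x => ContinuousLinearMap.inverse (A x) (u x) :=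
    funext e
  rw [e']
  exact h4

theorem hol_an {V : Type} [NormedAddCommGroup V] [NormedSpace ℂ V] [CompleteSpace V] {U : Set ℂ}
    (hU : IsOpen U) {f : ℂ → V} (hf : DifferentiableOn ℂ f U) :
    AnalyticOnNhd ℝ (fun x : ℝ => f x) {x : ℝ | (x : ℂ) ∈ U} := by
  intro x hx
  have h1 : AnalyticAt ℂ f x := hf.analyticAt (hU.mem_nhds hx)
  have h2 : AnalyticAt ℝ f x := h1.restrictScalars
  exact h2.comp (Complex.ofRealCLM.analyticAt x)

variable {m r : ℕ} {b : Fin (r + 1) → ℕ}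

theorem jt_an (Φ : FamD m b) {t₀ : Fin (r + 1) → ℂ} (h₀ : Function.Injective t₀) {U : Set ℂ}
    (hU : IsOpen U) {t : ℂ → (Fin (r + 1) → ℂ)} (ht : DifferentiableOn ℂ t U)
    (hb : ∀ z ∈ U, t z ∈ ball t₀ (Φ.ρ t₀)) (v : Ix m b → ℂ) :
    AnalyticOnNhd ℝ (fun x : ℝ => NI.Jt Φ t₀ (t x) v) {x : ℝ | (x : ℂ) ∈ U} := by
  have hI : IsOpen {x : ℝ | (x : ℂ) ∈ U} := hU.preimage Complex.continuous_ofReal
  have h1 : ∀ v, AnalyticOnNhd ℝ (fun x : ℝ => Φ.τ t₀ (t x) v) {x : ℝ | (x : ℂ) ∈ U} := by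
    intro v
    have h2 : DifferentiableOn ℂ (fun z => Φ.τ t₀ (t z) v) U := (Φ.hol t₀ h₀ v).comp ht hb
    exact hol_an hU h2
  refine inv_an hI (fun x : ℝ => Φ.τ t₀ (t x)) h1 (fun x : ℝ => Complex.I • Φ.τ t₀ (t x) v) ?_
  have h3 : DifferentiableOn ℂ (fun z => Complex.I • Φ.τ t₀ (t z) v) U :=
    ((Φ.hol t₀ h₀ v).comp ht hb).const_smul Complex.I
  exact hol_an hU h3

end Idt_aux

open Idt_aux in
theorem tIdt : S_Idt := by
  intro m r m' r' b b' Φ Φ' t₀ t₀' Λ h₀ h₀' U t t' hU ht ht' hb hpre x₀ x₁ hx₀ hx₁ hev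
  refine ⟨(hb _ hx₀).1, (hb _ hx₀).2, fun v => ?_⟩
  have hL : AnalyticOnNhd ℝ (fun x : ℝ => Λ (NI.Jt Φ t₀ (t x) v)) {x : ℝ | (x : ℂ) ∈ U} := by
    intro x hx
    have h1 := jt_an Φ h₀ hU ht (fun z hz => (hb z hz).1) v x hx
    exact ((Λ.toContinuousLinearEquiv : (Ix m b → ℂ) →L[ℝ] (Ix m' b' → ℂ)).analyticAt _).comp h1
  have hR := jt_an Φ' h₀' hU ht' (fun z hz => (hb z hz).2) (Λ v)
  have h2 := (hL.sub hR).eqOn_zero_of_preconnected_of_eventuallyEq_zero hpre hx₁ (by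
    filter_upwards [hev] with x hx
    exact sub_eq_zero.2 (hx.2.2 v))
  exact sub_eq_zero.1 (h2 hx₀)

end TNF.AL
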