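import Pool.Agent.Lib.TNF.AL.Spec
import Pool.Agent.Lib.TATE.Asm.Av
import Pool.Agent.Lib.TATE.Asm.Ls
import Pool.Agent.Lib.TATE.Asm.Main

/-! # PROJECT TNF, AL: classes in finite flat families are algebraic (`StmtAL`) -/

set_option autoImplicit false

open Topology Metric

noncomputable section

namespace TNF.AL

open HC HC.CC SEJ SEB SEQ TATE TNF.HS

namespace Main_aux

/-- Derivations and push forward. -/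
theorem der_cj {V V' : Type} [NormedAddCommGroup V] [NormedSpace ℂ V] [NormedAddCommGroup V']
    [NormedSpace ℂ V'] {d : ℕ} (F : V →ₗ[ℝ] V') (F' : V' →ₗ[ℝ] V) (h : ∀ v, F' (F v) = v)
    (Y : V →ₗ[ℝ] V) (Y' : V' →ₗ[ℝ] V') (hY : ∀ v, Y' (F v) = F (Y v)) (c : Cl V d)
    (hc : ∀ a, der Y' (psh F c) a = 0) (a) : der Y c a = 0 := by
  rw [← hc fun i => a i ∘ₗ F']
  unfold der
  refine Finset.sum_congr rfl fun i _ => ?_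
  have h5 : Function.update a i (a i ∘ₗ Y) = fun k => Function.update
      (fun i => a i ∘ₗ F') i ((a i ∘ₗ F') ∘ₗ Y') k ∘ₗ F := by
    funext k
    rcases eq_or_ne k i with hk | hk
    · subst hk
      rw [Function.update_self, Function.update_self]
      refine LinearMap.ext fun v => ?_
      change a k (Y v) = a k (F' (Y' (F v)))
      rw [hY, h]
    · rw [Function.update_of_ne hk, Function.update_of_ne hk]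
      refine LinearMap.ext fun v => ?_
      change a k v = a k (F' (F v))
      rw [h]
  rw [h5]
  rfl

end Main_aux

open Main_aux TATE.Ls_aux in
/-- **AL**. -/
theorem tAL (hHt : S_HtE2) (hAv : S_AvZ) (hCyf : S_Cyf) (hRpl : S_Rpl) (hRig : S_Rig)
    (hSk : S_Sk) (hAlg : S_Alg) (hNi : S_Ni) (hRep : TATE.S_Rep) (hG3 : S_Gcy3) (hKil : S_Kil)
    (hTwo : TNF.HS.S_Two) (hHS : StmtHS) : StmtAL := by
  intro hM Φ p N s J γ hs P T g hg G hG hGL d hd X hX C hC hGC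
  obtain ⟨c, hcdef⟩ : ∃ c, c = psh ((G : T.V →ₗ[ℂ] P.D.V).restrictScalars ℝ) C := ⟨_, rfl⟩
  rw [← hcdef] at hGC
  have hc : GCY Φ P.D P.ok s X c := ⟨hGC.1, fun w hw M hMl => hGC.2 w hw M hMl⟩
  obtain ⟨ε₁, hε₁, hball⟩ := hG3 Φ p N P.D P.ok s hs
  obtain ⟨ε₂, hε₂, hkil⟩ := hKil Φ p N P.D P.ok s hs
  obtain ⟨ε₃, hε₃, Z, hZ, hrig⟩ := hRig Φ p N P.D P.ok s hs
  obtain ⟨X1, hX1, H1⟩ := hHt p
  obtain ⟨X2, hX2, H2⟩ := hNi p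
  obtain ⟨s₁, hs₁, s₂, hs₂, hx, hy1, hy2, hz1, -⟩ := hTwo p s (X1 ∪ X2) X Z
    (meagre_union hX1 hX2) hX hZ (min ε₁ (min ε₂ ε₃)) (lt_min hε₁ (lt_min hε₂ hε₃))
  have hx1 : (s₁, s₂) ∉ X1 := fun h => hx (Or.inl h)
  have hx2 : (s₁, s₂) ∉ X2 := fun h => hx (Or.inr h)
  have e1 : min ε₁ (min ε₂ ε₃) ≤ ε₁ := min_le_left _ _
  have e2 : min ε₁ (min ε₂ ε₃) ≤ ε₂ := (min_le_right _ _).trans (min_le_left _ _)
  have e3 : min ε₁ (min ε₂ ε₃) ≤ ε₃ := (min_le_right _ _).trans (min_le_right _ _)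
  obtain ⟨hinj1, hdom1, -, -⟩ := hball s₁ (ball_subset_ball e1 hs₁)
  obtain ⟨hinj2, -, -, -⟩ := hball s₂ (ball_subset_ball e1 hs₂)
  obtain ⟨J0, Z0, κ0, hN0, hκZ0, hκ0⟩ := hAv p N P.D s P.ok hs
  obtain ⟨J1, Z1, κ1, hN1, hκZ1, hκ1⟩ := hAv p N P.D s₁ P.ok hinj1
  obtain ⟨J2, Z2, κ2, hN2, hκZ2, hκ2⟩ := hAv p N P.D s₂ P.ok hinj2
  obtain ⟨q, ρ, j, hj, hρ⟩ := hRep N J1
  obtain ⟨q', ρ', j', hj', hρ'⟩ := hRep N J2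
  obtain ⟨θ1, A1, hθ1L, hθ1, hA1⟩ := hRpl p N P.D s₁ J1 κ1 hκ1 q (fun a => J1 (ρ a)) j hj
  obtain ⟨θ2, A2, -, -, hA2⟩ := hRpl p N P.D s₂ J2 κ2 hκ2 q' (fun a => J2 (ρ' a)) j' hj'
  have hE0 : ∀ a, ∃ (k : ℕ) (E : Cyc (J0 (ρ a)) (P.D.m (ρ a))), k ≠ 0 ∧
      (∀ v, E.Z v = Z0 (ρ a) v) ∧ ∀ u v, E.ψ u v =
        k * (Φ _ _ _ (P.ok.cv (ρ a))).E (P.D.t s (ρ a)) (κ0 (ρ a) u) (κ0 (ρ a) v) := fun a =>
    hCyf _ _ _ (Φ _ _ _ (P.ok.cv (ρ a))) (P.D.t s (ρ a)) (Av_aux.inj_t P.D s P.ok hs (ρ a))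
      (J0 (ρ a)) (Z0 (ρ a)) (κ0 (ρ a)) (hN0 (ρ a)).cyc (hκZ0 (ρ a)) (hκ0 (ρ a))
  have hE1 : ∀ a, ∃ (k : ℕ) (E : Cyc (J1 (ρ a)) (P.D.m (ρ a))), k ≠ 0 ∧
      (∀ v, E.Z v = Z1 (ρ a) v) ∧ ∀ u v, E.ψ u v =
        k * (Φ _ _ _ (P.ok.cv (ρ a))).E (P.D.t s₁ (ρ a)) (κ1 (ρ a) u) (κ1 (ρ a) v) := fun a =>
    hCyf _ _ _ (Φ _ _ _ (P.ok.cv (ρ a))) (P.D.t s₁ (ρ a)) (Av_aux.inj_t P.D s₁ P.ok hinj1 (ρ a))
      (J1 (ρ a)) (Z1 (ρ a)) (κ1 (ρ a)) (hN1 (ρ a)).cyc (hκZ1 (ρ a)) (hκ1 (ρ a))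
  have hE2 : ∀ a, ∃ (k : ℕ) (E : Cyc (J2 (ρ' a)) (P.D.m (ρ' a))), k ≠ 0 ∧
      (∀ v, E.Z v = Z2 (ρ' a) v) ∧ ∀ u v, E.ψ u v =
        k * (Φ _ _ _ (P.ok.cv (ρ' a))).E (P.D.t s₂ (ρ' a)) (κ2 (ρ' a) u) (κ2 (ρ' a) v) := fun a =>
    hCyf _ _ _ (Φ _ _ _ (P.ok.cv (ρ' a))) (P.D.t s₂ (ρ' a))
      (Av_aux.inj_t P.D s₂ P.ok hinj2 (ρ' a))
      (J2 (ρ' a)) (Z2 (ρ' a)) (κ2 (ρ' a)) (hN2 (ρ' a)).cyc (hκZ2 (ρ' a)) (hκ2 (ρ' a))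
  choose k0 E0 hk0 hE0Z hE0 using hE0
  choose k1 E1 hk1 hE1Z hE1 using hE1
  choose k2 E2 hk2 hE2Z hE2 using hE2
  have kill := hkil s₁ (ball_subset_ball e2 hs₁) s₂ (ball_subset_ball e2 hs₂) X d c hc hy1 hy2
    q q' (fun a => J1 (ρ a)) (fun a => J2 (ρ' a)) (fun a => P.D.m (ρ a)) (fun a => P.D.m (ρ' a))
    E1 E2 (H1 (s₁, s₂) hx1 q q' (sub P.D ρ) (sub P.D ρ') (sub_ok P.ok ρ) (sub_ok P.ok ρ')
      (fun a => J1 (ρ a)) (fun a => J2 (ρ' a)) (fun a => Z1 (ρ a)) (fun a => Z2 (ρ' a))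
      (fun a => hN1 (ρ a)) (fun a => hN2 (ρ' a)) hρ hρ'
      (fun a b => H2 (s₁, s₂) hx2 N N P.D P.D P.ok P.ok (ρ a) (ρ' b) (J1 (ρ a)) (J2 (ρ' b))
        (Z1 (ρ a)) (Z2 (ρ' b)) (hN1 (ρ a)) (hN2 (ρ' b))) E1 E2 hE1Z hE2Z) A1 A2 hA1 hA2
  -- the isogenies at `s`
  have hψ1 : ∀ n, ((θ1 n).trans (κ1 (ρ (j n)))) '' LQ (P.D.m n) (P.D.b n) (P.D.t s₁ n) =
      LQ (P.D.m (ρ (j n))) (P.D.b (ρ (j n))) (P.D.t s₁ (ρ (j n))) := by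
    intro n
    rw [← hκ1 (ρ (j n)), ← hθ1L n, Set.image_image]
    rfl
  have hr := fun n => hrig s₁ (ball_subset_ball e3 hs₁) hz1 n (ρ (j n))
    ((θ1 n).trans (κ1 (ρ (j n)))) (hψ1 n)
  choose ψ0 hψ0L hψ0 using hr
  obtain ⟨θ0, hθ0⟩ : ∃ θ0 : ∀ n, (Ix (P.D.m n) (P.D.b n) → ℂ) ≃ₗ[ℂ] (J0 (ρ (j n))).V,
      θ0 = fun n => (ψ0 n).trans (κ0 (ρ (j n))).symm := ⟨_, rfl⟩
  have hκθ : ∀ n v, κ0 (ρ (j n)) (θ0 n v) = ψ0 n v := by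
    intro n v
    rw [hθ0]
    exact LinearEquiv.apply_symm_apply _ _
  obtain ⟨η, hη⟩ : ∃ η : ∀ a, (J0 (ρ a)).V ≃ₗ[ℝ] (J1 (ρ a)).V,
      ∀ a v, κ1 (ρ a) (η a v) =
        (Φ _ _ _ (P.ok.cv (ρ a))).τ (P.D.t s (ρ a)) (P.D.t s₁ (ρ a)) (κ0 (ρ a) v) := by
    refine ⟨fun a => ((κ0 (ρ a)).restrictScalars ℝ).trans
      (((Φ _ _ _ (P.ok.cv (ρ a))).τ (P.D.t s (ρ a)) (P.D.t s₁ (ρ a))).trans
        ((κ1 (ρ a)).restrictScalars ℝ).symm), fun a v => ?_⟩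
    exact LinearEquiv.apply_symm_apply (κ1 (ρ a)) _
  have hinj0 := fun a => Av_aux.inj_t P.D s P.ok hs (ρ a)
  have kill0 := hSk N q (fun n => Ix (P.D.m n) (P.D.b n) → ℂ) (fun a => J0 (ρ a))
    (fun a => J1 (ρ a)) (fun a => P.D.m (ρ a)) E0 E1 j θ0 θ1
    (fun n => (Φ _ _ _ (P.ok.cv n)).τ (P.D.t s n) (P.D.t s₁ n)) η
    (fun a v => by
      apply (κ1 (ρ a)).injective
      rw [hη, hE0Z, hκZ0, hE1Z, hκZ1, hη]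
      exact (Φ _ _ _ (P.ok.cv (ρ a))).com _ (hinj0 a) _ (hdom1 (ρ a)) _)
    (fun a => by
      have h0 : (k0 a : ℝ) ≠ 0 := Nat.cast_ne_zero.2 (hk0 a)
      have h1 : (k1 a : ℝ) ≠ 0 := Nat.cast_ne_zero.2 (hk1 a)
      refine ⟨k1 a / k0 a, div_ne_zero h1 h0, fun u v => ?_⟩
      rw [hE1, hη, hη, (Φ _ _ _ (P.ok.cv (ρ a))).iso _ (hinj0 a) _ (hdom1 (ρ a)), hE0]
      field_simp)
    (fun n v => by
      apply (κ1 (ρ (j n))).injective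
      rw [hη, hκθ]
      exact hψ0 n v) A1 hθ1 d c kill
  -- the second part of the main theorem
  have hbij : Function.Bijective fun (v : T.V) (n : Fin N) => θ0 n (G v n) := by
    have h1 : (fun (v : T.V) (n : Fin N) => θ0 n (G v n)) =
        (LinearEquiv.piCongrRight θ0) ∘ G := by
      funext v n
      rfl
    rw [h1]
    exact (LinearEquiv.piCongrRight θ0).bijective.comp G.bijective
  refine hAlg hM T q N (fun a => J0 (ρ a)) j (fun a => P.D.m (ρ a)) (fun a => P.D.r (ρ a))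
    (fun a => P.D.t s (ρ a)) (fun a => P.D.b (ρ a)) E0 (fun a => P.ok.cv (ρ a)) hinj0
    (fun a => ?_) (fun n => (θ0 n : _ →ₗ[ℂ] (J0 (ρ (j n))).V) ∘ₗ (LinearMap.proj n) ∘ₗ
      (G : T.V →ₗ[ℂ] P.D.V)) hbij ?_ d C hC ?_ ?_
  · have h1 : (fun v => (E0 a).Z v) = Z0 (ρ a) := funext (hE0Z a)
    rw [h1]
    exact hN0 (ρ a)
  · intro v hv n
    have h1 : G v ∈ P.D.L s := by
      rw [← hGL]
      exact ⟨v, hv, rfl⟩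
    have h2 : ψ0 n (G v n) ∈ LQ (P.D.m (ρ (j n))) (P.D.b (ρ (j n))) (P.D.t s (ρ (j n))) := by
      rw [← hψ0L n]
      exact ⟨G v n, h1 n, rfl⟩
    rw [← hκ0 (ρ (j n))] at h2
    obtain ⟨w, hw, hw'⟩ := h2
    have h3 : θ0 n (G v n) = w := by
      apply (κ0 (ρ (j n))).injective
      rw [hκθ, hw']
    change Rt (J0 (ρ (j n))) (θ0 n (G v n))
    rw [h3]
    exact hw
  · refine TATE.Main_aux.der_psh G C ?_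
    rw [← hcdef]
    exact hHS Φ p s hs N P.D P.ok d hd X hX c hc
  · intro P' Q' hP' hQ' Y hY
    have h1 := kill0 P' Q' hP' hQ' (((G : T.V →ₗ[ℂ] P.D.V).restrictScalars ℝ) ∘ₗ Y ∘ₗ
      ((G.symm : P.D.V →ₗ[ℂ] T.V).restrictScalars ℝ)) (fun v n => by
        have h2 := hY (G.symm v) n
        change θ0 n (G (Y (G.symm v)) n) = P' (j n) (Q' (j n) (θ0 n (G (G.symm v) n))) -
          Q' (j n) (P' (j n) (θ0 n (G (G.symm v) n))) at h2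
        rw [LinearEquiv.apply_symm_apply] at h2
        exact h2)
    rw [hcdef] at h1
    refine der_cj ((G : T.V →ₗ[ℂ] P.D.V).restrictScalars ℝ)
      ((G.symm : P.D.V →ₗ[ℂ] T.V).restrictScalars ℝ) (fun v => G.symm_apply_apply v) Y _
      (fun v => ?_) C h1
    change G (Y (G.symm (G v))) = G (Y v)
    rw [LinearEquiv.symm_apply_apply]

end TNF.AL
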