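import Pool.Agent.Lib.TNF.AL.SpecR
import Pool.Agent.Lib.TNF.HS.Gcy3
import Pool.Agent.Lib.TATE.NI.Bai

/-!
# PROJECT TNF, AL: isogenies near `s`, transported to `s`
-/

set_option autoImplicit false

open Topology Metric

noncomputable section

namespace TNF.AL

open HC HC.CC SEJ SEB SEQ TATE

namespace Rig_aux

/-- A real linear isomorphism which commutes with `i` is complex linear. -/
def cpl {V V' : Type} [NormedAddCommGroup V] [NormedSpace ℂ V] [NormedAddCommGroup V']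
    [NormedSpace ℂ V'] (Λ : V ≃ₗ[ℝ] V') (h : ∀ v, Λ (Complex.I • v) = Complex.I • Λ v) :
    V ≃ₗ[ℂ] V' :=
  { Λ with
    map_smul' := fun c v => by
      have h1 : c • v = c.re • v + c.im • (Complex.I • v) := by
        rw [← Complex.coe_smul c.re, ← Complex.coe_smul c.im, smul_smul, ← add_smul,
          Complex.re_add_im]
      change Λ (c • v) = c • Λ v
      rw [h1, map_add, map_smul, map_smul, h, ← Complex.coe_smul c.re, ← Complex.coe_smul c.im,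
        smul_smul, ← add_smul, Complex.re_add_im] }

theorem cpl_apply {V V' : Type} [NormedAddCommGroup V] [NormedSpace ℂ V] [NormedAddCommGroup V']
    [NormedSpace ℂ V'] (Λ : V ≃ₗ[ℝ] V') (h : ∀ v, Λ (Complex.I • v) = Complex.I • Λ v) (v : V) :
    cpl Λ h v = Λ v := rfl

variable {p N : ℕ}

/-- The points near `s` at which `Λ` is complex linear. -/
def CS (Φ : FF) (D : Dt p N) (h : D.ok) (s : Fin p → ℂ) (ε : ℝ) (n n' : Fin N)
    (Λ : (Ix (D.m n) (D.b n) → ℂ) ≃ₗ[ℝ] (Ix (D.m n') (D.b n') → ℂ)) : Set (Fin p → ℂ) :=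
  {s' | s' ∈ ball s ε ∧ (D.t s' n, D.t s' n') ∈
    NI.CL (Φ _ _ _ (h.cv n)) (Φ _ _ _ (h.cv n')) (D.t s n) (D.t s n') Λ}

theorem cs_closed (hCls : NI.S_Cls) (Φ : FF) (D : Dt p N) (h : D.ok) {s : Fin p → ℂ}
    (hs : Function.Injective s) {ε : ℝ} (hi : ∀ s' ∈ ball s ε, Function.Injective s' ∧
      ∀ n, D.t s' n ∈ ball (D.t s n) ((Φ _ _ _ (h.cv n)).ρ (D.t s n))) (n n' : Fin N)
    (Λ : (Ix (D.m n) (D.b n) → ℂ) ≃ₗ[ℝ] (Ix (D.m n') (D.b n') → ℂ)) :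
    ∃ K, IsClosed K ∧ CS Φ D h s ε n n' Λ = ball s ε ∩ K := by
  obtain ⟨K, hK, hK'⟩ := hCls _ _ _ _ _ _ (Φ _ _ _ (h.cv n)) (Φ _ _ _ (h.cv n')) (D.t s n)
    (D.t s n') Λ (FL.t_inj h hs n) (FL.t_inj h hs n')
  have hc : ContinuousOn (fun s' => (D.t s' n, D.t s' n')) (ball s ε) := fun s' hs' =>
    ((HS.Gcy3_aux.t_cont h (hi s' hs').1 n).prodMk
      (HS.Gcy3_aux.t_cont h (hi s' hs').1 n')).continuousWithinAt
  obtain ⟨u, hu, hu'⟩ := continuousOn_iff_isClosed.1 hc K hK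
  refine ⟨u, hu, ?_⟩
  rw [Set.inter_comm, ← hu']
  ext s'
  constructor
  · rintro ⟨h1, h2⟩
    rw [hK'] at h2
    exact ⟨h2.2, h1⟩
  · rintro ⟨h1, h2⟩
    refine ⟨h2, ?_⟩
    rw [hK']
    exact ⟨⟨(hi s' h2).2 n, (hi s' h2).2 n'⟩, h1⟩

theorem line_diff {D : Dt p N} (h : D.ok) {s w : Fin p → ℂ} {ε : ℝ}
    (hi : ∀ s' ∈ ball s ε, Function.Injective s') (n : Fin N) :
    DifferentiableOn ℂ (fun z => D.t (ln s w z) n) {z | ln s w z ∈ ball s ε} := fun _ hz =>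
  (FL.t_diff h (hi _ hz) n).differentiableWithinAt

theorem ln_cont (s w : Fin p → ℂ) : Continuous (ln s w) := by
  unfold ln
  fun_prop

theorem line_conn (s w : Fin p → ℂ) (ε : ℝ) :
    IsPreconnected {x : ℝ | (x : ℂ) ∈ {z | ln s w z ∈ ball s ε}} := by
  have h1 : Convex ℝ {x : ℝ | ln s w (x : ℂ) ∈ ball s ε} := by
    intro x hx y hy a b ha hb hab
    have h2 := (convex_ball s ε) hx hy ha hb hab
    have h3 : ln s w ((a • x + b • y : ℝ) : ℂ) = a • ln s w (x : ℂ) + b • ln s w (y : ℂ) := by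
      funext i
      have hab' : (a : ℂ) + (b : ℂ) = 1 := by
        rw [← Complex.ofReal_add, hab, Complex.ofReal_one]
      simp only [ln, Pi.add_apply, Pi.smul_apply, smul_eq_mul, Complex.real_smul]
      push_cast
      linear_combination (-s i) * hab'
    rw [← h3] at h2
    exact h2
  exact h1.isPreconnected

end Rig_aux

open Rig_aux in
theorem tRig : StmtGA3 → S_Idt → NI.S_Cnt → NI.S_Cls → S_Rig := by
  intro hGA3 hIdt hCnt hCls Φ p N D h s hs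
  have h1 : ∀ᶠ s' in 𝓝 s, Function.Injective s' ∧
      ∀ n, D.t s' n ∈ ball (D.t s n) ((Φ _ _ _ (h.cv n)).ρ (D.t s n)) := by
    refine Filter.Eventually.and ((NI.Opn_aux.inj_open p).mem_nhds hs) ?_
    rw [Filter.eventually_all]
    intro n
    exact (HS.Gcy3_aux.t_cont h hs n)
      (ball_mem_nhds _ ((Φ _ _ _ (h.cv n)).rpos _ (FL.t_inj h hs n)))
  obtain ⟨ε, hε, hi⟩ := Metric.eventually_nhds_iff_ball.1 h1
  have hti := fun n => FL.t_inj h hs n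
  refine ⟨ε, hε, ⋃ n : Fin N, ⋃ n' : Fin N, ⋃ Λ ∈ {Λ : (Ix (D.m n) (D.b n) → ℂ) ≃ₗ[ℝ]
    (Ix (D.m n') (D.b n') → ℂ) | ∀ v ∈ LQ (D.m n) (D.b n) (D.t s n),
      Λ v ∈ LQ (D.m n') (D.b n') (D.t s n')},
      {s₁ | s₁ ∈ CS Φ D h s ε n n' Λ ∧ CS Φ D h s ε n n' Λ ∉ 𝓝 s₁}, ?_, ?_⟩
  · refine isMeagre_iUnion fun n => isMeagre_iUnion fun n' => isMeagre_biUnion
      (hCnt _ _ _ _ ((Φ _ _ _ (h.cv n)).spn _ (hti n)) ((Φ _ _ _ (h.cv n')).cnt _ (hti n')))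
      fun Λ _ => ?_
    have h2 := hGA3 p (fun _ => ball s ε) (fun _ => CS Φ D h s ε n n' Λ) (fun _ => isOpen_ball)
      (fun _ => cs_closed hCls Φ D h hs hi n n' Λ)
    refine h2.mono ?_
    intro s₁ hs₁
    exact ⟨0, hs₁⟩
  intro s₁ hs₁ hX n n' ψ hψ
  let Λ : (Ix (D.m n) (D.b n) → ℂ) ≃ₗ[ℝ] (Ix (D.m n') (D.b n') → ℂ) :=
    ((Φ _ _ _ (h.cv n)).τ (D.t s n) (D.t s₁ n)).trans ((ψ.restrictScalars ℝ).trans
      ((Φ _ _ _ (h.cv n')).τ (D.t s n') (D.t s₁ n')).symm)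
  have hΛ : ∀ v, Λ v = ((Φ _ _ _ (h.cv n')).τ (D.t s n') (D.t s₁ n')).symm
      (ψ ((Φ _ _ _ (h.cv n)).τ (D.t s n) (D.t s₁ n) v)) := fun v => rfl
  have hΛL : ∀ v, Λ v ∈ LQ (D.m n') (D.b n') (D.t s n') ↔
      v ∈ LQ (D.m n) (D.b n) (D.t s n) := by
    intro v
    rw [← NI.Bai_aux.lq (Φ _ _ _ (h.cv n')) (hti n') ((hi s₁ hs₁).2 n'), hΛ,
      LinearEquiv.apply_symm_apply, ← NI.Bai_aux.lq (Φ _ _ _ (h.cv n)) (hti n) ((hi s₁ hs₁).2 n),
      ← hψ]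
    constructor
    · rintro ⟨w, hw, hw'⟩
      rw [← ψ.injective hw']
      exact hw
    · exact fun h => ⟨_, h, rfl⟩
  have hC : s₁ ∈ CS Φ D h s ε n n' Λ := by
    refine ⟨hs₁, (hi s₁ hs₁).2 n, (hi s₁ hs₁).2 n', fun v => ?_⟩
    rw [hΛ]
    unfold NI.Jt
    rw [hΛ, LinearEquiv.apply_symm_apply, LinearEquiv.apply_symm_apply, map_smul]
  have hN : CS Φ D h s ε n n' Λ ∈ 𝓝 s₁ := by
    by_contra hcon
    exact hX (Set.mem_iUnion.2 ⟨n, Set.mem_iUnion.2 ⟨n', Set.mem_iUnion₂.2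
      ⟨Λ, fun v hv => (hΛL v).2 hv, hC, hcon⟩⟩⟩)
  have h0 : ln s (s₁ - s) ((0 : ℝ) : ℂ) = s := by
    rw [Complex.ofReal_zero]
    exact TATE.Gc3_aux.ln_zero _ _
  have h0' : ln s (s₁ - s) ((1 : ℝ) : ℂ) = s₁ := by
    rw [Complex.ofReal_one]
    exact TATE.Gc3_aux.ln_one _ _
  have hfin := hIdt _ _ _ _ _ _ (Φ _ _ _ (h.cv n)) (Φ _ _ _ (h.cv n')) (D.t s n) (D.t s n') Λ
    (hti n) (hti n') {z | ln s (s₁ - s) z ∈ ball s ε} (fun z => D.t (ln s (s₁ - s) z) n)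
    (fun z => D.t (ln s (s₁ - s) z) n') (isOpen_ball.preimage (ln_cont _ _))
    (line_diff h (fun s' hs' => (hi s' hs').1) n) (line_diff h (fun s' hs' => (hi s' hs').1) n')
    (fun z hz => ⟨(hi _ hz).2 n, (hi _ hz).2 n'⟩) (line_conn _ _ _) 0 1
    (by
      change ln s (s₁ - s) ((0 : ℝ) : ℂ) ∈ ball s ε
      rw [h0]
      exact mem_ball_self hε)
    (by
      change ln s (s₁ - s) ((1 : ℝ) : ℂ) ∈ ball s ε
      rw [h0']
      exact hs₁)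
    (by
      have hct : Continuous fun x : ℝ => ln s (s₁ - s) (x : ℂ) :=
        (ln_cont _ _).comp Complex.continuous_ofReal
      have h3 := hct.continuousAt (x := 1)
      rw [ContinuousAt, h0'] at h3
      filter_upwards [h3 hN] with x hx
      exact hx.2)
  rw [h0] at hfin
  have hI : ∀ v, Λ (Complex.I • v) = Complex.I • Λ v := by
    intro v
    have h4 := hfin.2.2 v
    unfold NI.Jt at h4
    have e1 : ∀ (k : Fin N) (x : Ix (D.m k) (D.b k) → ℂ),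
        ((Φ _ _ _ (h.cv k)).τ (D.t s k) (D.t s k)).symm x = x := by
      intro k x
      rw [LinearEquiv.symm_apply_eq, (Φ _ _ _ (h.cv k)).one _ (hti k)]
    rw [(Φ _ _ _ (h.cv n)).one _ (hti n), (Φ _ _ _ (h.cv n')).one _ (hti n'), e1, e1] at h4
    exact h4
  refine ⟨cpl Λ hI, ?_, fun v => ?_⟩
  · ext v
    constructor
    · rintro ⟨u, hu, rfl⟩
      exact (hΛL u).2 hu
    · intro hv
      refine ⟨Λ.symm v, ?_, ?_⟩
      · rw [← hΛL, LinearEquiv.apply_symm_apply]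
        exact hv
      · rw [cpl_apply, LinearEquiv.apply_symm_apply]
  · rw [cpl_apply, hΛ, LinearEquiv.apply_symm_apply]

end TNF.AL
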