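import Pool.Agent.Lib.TNF.AL.SpecR
import Pool.Agent.Lib.TATE.Asm.Rp

/-!
# PROJECT TNF, AL: the representation of tuples, with the lattices
-/

set_option autoImplicit false

open Topology Metric

noncomputable section

namespace TNF.AL

open HC HC.CC SEJ SEB SEQ TATE

open TATE.Rp_aux

theorem tRpl : S_Rpl := by
  intro p N D s J κ hκ q R j hj
  choose ψ hψ using hj
  obtain ⟨e, he⟩ : ∃ e : ∀ n, (R (j n)).V ≃ₗ[ℂ] (Ix (D.m n) (D.b n) → ℂ),
      e = fun n => (ψ n).symm.trans (κ n) := ⟨_, rfl⟩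
  refine ⟨fun n => (e n).symm, act D j e, fun n => ?_, fun X v n => ?_, ?_, ?_, ?_, ?_, ?_⟩
  · ext v
    constructor
    · rintro ⟨u, hu, rfl⟩
      rw [← hκ n] at hu
      obtain ⟨w, hw, hwu⟩ := hu
      have hw' : Rt (J n) w := hw
      have h1 : (e n).symm u = ψ n w := by
        rw [← hwu, he]
        simp
      rw [h1]
      exact rt_map (((ψ n).toLinearMap).restrictScalars ℝ) (hψ n) w hw'
    · intro hv
      have hv' : Rt (R (j n)) v := hv
      have h4 : Rt (J n) ((ψ n).symm v) :=
        rt_map ((((ψ n).symm).toLinearMap).restrictScalars ℝ)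
          (HC.E.tIsoInv (J n) (R (j n)) (ψ n) (hψ n)) _ hv'
      refine ⟨e n v, ?_, LinearEquiv.symm_apply_apply _ _⟩
      rw [← hκ n]
      refine ⟨(ψ n).symm v, h4, ?_⟩
      rw [he]
      rfl
  · change (e n).symm (e n (X (j n) ((e n).symm (v n)))) = X (j n) ((e n).symm (v n))
    rw [LinearEquiv.symm_apply_apply]
  · intro X Y
    refine LinearMap.ext fun v => funext fun n => ?_
    change e n ((X (j n) + Y (j n)) ((e n).symm (v n))) =
      e n (X (j n) ((e n).symm (v n))) + e n (Y (j n) ((e n).symm (v n)))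
    rw [LinearMap.add_apply, map_add]
  · intro x X
    refine LinearMap.ext fun v => funext fun n => ?_
    change e n ((x • X (j n)) ((e n).symm (v n))) = x • e n (X (j n) ((e n).symm (v n)))
    rw [LinearMap.smul_apply, ← Complex.coe_smul, map_smul, Complex.coe_smul]
  · intro X Y
    refine LinearMap.ext fun v => funext fun n => ?_
    change e n ((X (j n) * Y (j n)) ((e n).symm (v n))) =
      e n (X (j n) ((e n).symm (e n (Y (j n) ((e n).symm (v n))))))
    rw [LinearEquiv.symm_apply_apply]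
    rfl
  · refine LinearMap.ext fun v => funext fun n => ?_
    have h1 : mulI (R (j n)) ((e n).symm (v n)) = Complex.I • (e n).symm (v n) := rfl
    change e n (mulI (R (j n)) ((e n).symm (v n))) = (Complex.I • v) n
    rw [h1, map_smul, LinearEquiv.apply_symm_apply]
    rfl
  · intro X hX v hv n
    have h0 : v n ∈ κ n '' {v | Rt (J n) v} := by
      rw [hκ n]
      exact hv n
    obtain ⟨w, hw, hwv⟩ := h0
    have hw' : Rt (J n) w := hw
    have h1 : (e n).symm (v n) = ψ n w := by
      rw [← hwv, he]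
      simp
    have h2 : Rt (R (j n)) (ψ n w) :=
      rt_map (((ψ n).toLinearMap).restrictScalars ℝ) (hψ n) w hw'
    have h3 : Rt (R (j n)) (X (j n) (ψ n w)) := rt_map (X (j n)) (hX (j n)) _ h2
    have h4 : Rt (J n) ((ψ n).symm (X (j n) (ψ n w))) :=
      rt_map ((((ψ n).symm).toLinearMap).restrictScalars ℝ)
        (HC.E.tIsoInv (J n) (R (j n)) (ψ n) (hψ n)) _ h3
    change e n (X (j n) ((e n).symm (v n))) ∈ LQ (D.m n) (D.b n) (D.t s n)
    rw [h1, ← hκ n]
    refine ⟨(ψ n).symm (X (j n) (ψ n w)), h4, ?_⟩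
    rw [he]
    rfl

end TNF.AL
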