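import Pool.Agent.Lib.TNF.AL.Spec

/-! # PROJECT TNF, AL: the Lie algebra at `s` (`S_Sk`) -/

set_option autoImplicit false

open Topology Metric

noncomputable section

namespace TNF.AL

open HC HC.CC SEJ SEB SEQ TATE TNF.HS

namespace Sk_aux

/-- Conjugation by a real linear equivalence. -/
def cjg {V V' : Type} [AddCommGroup V] [Module ℝ V] [AddCommGroup V'] [Module ℝ V'] (η : V ≃ₗ[ℝ] V')
    (P : Module.End ℝ V) : Module.End ℝ V' := (η : V →ₗ[ℝ] V') ∘ₗ P ∘ₗ (η.symm : V' →ₗ[ℝ] V)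

theorem cjg_apply {V V' : Type} [AddCommGroup V] [Module ℝ V] [AddCommGroup V'] [Module ℝ V']
    (η : V ≃ₗ[ℝ] V') (P : Module.End ℝ V) (v : V) : cjg η P (η v) = η (P v) := by
  change η (P (η.symm (η v))) = η (P v)
  rw [LinearEquiv.symm_apply_apply]

theorem isU_cjg {T T₁ : AV} {m : ℕ} (E : Cyc T m) (E₁ : Cyc T₁ m) (η : T.V ≃ₗ[ℝ] T₁.V)
    (h1 : ∀ v, η (E.Z v) = E₁.Z (η v)) (h2 : ∃ x : ℝ, x ≠ 0 ∧ ∀ u v, E₁.ψ (η u) (η v) = x * E.ψ u v)
    (P : Module.End ℝ T.V) (hP : IsU E P) : IsU E₁ (cjg η P) := by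
  obtain ⟨x, -, hx⟩ := h2
  refine ⟨fun v => ?_, fun u v => ?_⟩
  · obtain ⟨v, rfl⟩ := η.surjective v
    rw [← h1, cjg_apply, hP.1, h1, cjg_apply]
  · obtain ⟨u, rfl⟩ := η.surjective u
    obtain ⟨v, rfl⟩ := η.surjective v
    rw [cjg_apply, cjg_apply, hx, hx, ← mul_add, hP.2, mul_zero]

/-- The commutators of elements of `u` are in `su`. -/
theorem isSU_comm {T : AV} {m : ℕ} (E : Cyc T m) (P Q : Module.End ℝ T.V) (hP : IsU E P)
    (hQ : IsU E Q) : IsSU E (P * Q - Q * P) := by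
  refine ⟨⟨fun v => ?_, fun u v => ?_⟩, fun k => ?_⟩
  · rw [LinearMap.sub_apply, Module.End.mul_apply, Module.End.mul_apply, hQ.1, hP.1, hP.1, hQ.1,
      LinearMap.sub_apply, Module.End.mul_apply, Module.End.mul_apply, map_sub]
  · have a1 := hP.2 (Q u) v
    have a2 := hQ.2 u (P v)
    have a3 := hQ.2 (P u) v
    have a4 := hP.2 u (Q v)
    rw [LinearMap.sub_apply, Module.End.mul_apply, Module.End.mul_apply, map_sub,
      LinearMap.sub_apply, LinearMap.sub_apply, Module.End.mul_apply, Module.End.mul_apply, map_sub]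
    linarith
  · have hZ : P * E.ZR = E.ZR * P := by
      refine LinearMap.ext fun v => ?_
      exact hP.1 v
    have hk : P * E.ZR ^ k = E.ZR ^ k * P := (Commute.pow_right hZ k)
    rw [sub_mul, map_sub, sub_eq_zero, mul_assoc Q P, hk, ← mul_assoc Q,
      LinearMap.trace_mul_comm ℝ (Q * E.ZR ^ k) P, mul_assoc P]

end Sk_aux

open Sk_aux in
theorem tSk : S_Sk := by
  intro N q K _ _ R R₁ m E E₁ j θ θ₁ φ η h1 h2 h3 A₁ hA₁ d c hc P Q hP hQ Y hY a
  obtain ⟨Y₁, hY₁⟩ : ∃ Y₁ : Tup R₁, Y₁ = fun i => cjg (η i) (P i) * cjg (η i) (Q i) -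
      cjg (η i) (Q i) * cjg (η i) (P i) := ⟨_, rfl⟩
  have hSU : ∀ i, IsSU (E₁ i) (Y₁ i) := by
    intro i
    rw [hY₁]
    exact isSU_comm (E₁ i) _ _ (isU_cjg (E i) (E₁ i) (η i) (h1 i) (h2 i) (P i) (hP i))
      (isU_cjg (E i) (E₁ i) (η i) (h1 i) (h2 i) (Q i) (hQ i))
  have hY1a : ∀ i v, Y₁ i (η i v) = η i (P i (Q i v) - Q i (P i v)) := by
    intro i v
    rw [hY₁]
    change cjg (η i) (P i) (cjg (η i) (Q i) (η i v)) - cjg (η i) (Q i) (cjg (η i) (P i) (η i v)) = _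
    rw [cjg_apply, cjg_apply, cjg_apply, cjg_apply, map_sub]
  obtain ⟨F, hF⟩ : ∃ F : (∀ n, K n) ≃ₗ[ℝ] (∀ n, K n), F = LinearEquiv.piCongrRight φ := ⟨_, rfl⟩
  have hFa : ∀ v n, F v n = φ n (v n) := by
    intro v n
    rw [hF]
    rfl
  have hFY : ∀ v, A₁ Y₁ (F v) = F (Y v) := by
    intro v
    funext n
    apply (θ₁ n).injective
    rw [hA₁, hFa, h3, hY1a, hFa, h3, hY]
  have h4 := hc Y₁ hSU fun i => a i ∘ₗ (F.symm : (∀ n, K n) →ₗ[ℝ] (∀ n, K n))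
  rw [← h4]
  unfold der
  refine Finset.sum_congr rfl fun i _ => ?_
  rw [← hF]
  have h5 : Function.update a i (a i ∘ₗ Y) = fun k => Function.update
      (fun i => a i ∘ₗ (F.symm : (∀ n, K n) →ₗ[ℝ] (∀ n, K n))) i
      ((a i ∘ₗ (F.symm : (∀ n, K n) →ₗ[ℝ] (∀ n, K n))) ∘ₗ A₁ Y₁) k ∘ₗ
        (F : (∀ n, K n) →ₗ[ℝ] (∀ n, K n)) := by
    funext k
    rcases eq_or_ne k i with hk | hk
    · subst hk
      rw [Function.update_self, Function.update_self]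
      refine LinearMap.ext fun v => ?_
      change a k (Y v) = a k (F.symm (A₁ Y₁ (F v)))
      rw [hFY, LinearEquiv.symm_apply_apply]
    · rw [Function.update_of_ne hk, Function.update_of_ne hk]
      refine LinearMap.ext fun v => ?_
      change a k v = a k (F.symm (F v))
      rw [LinearEquiv.symm_apply_apply]
  rw [h5]
  rfl

end TNF.AL
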