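import Pool.Agent.Lib.TNF.HS.All
import Pool.Agent.Lib.TNF.AL.Alg
import Pool.Agent.Lib.TNF.AL.AvZ
import Pool.Agent.Lib.TNF.AL.Cyf
import Pool.Agent.Lib.TNF.AL.HtE
import Pool.Agent.Lib.TNF.AL.HtE2
import Pool.Agent.Lib.TNF.AL.Idt
import Pool.Agent.Lib.TNF.AL.Rig
import Pool.Agent.Lib.TNF.AL.Rpl
import Pool.Agent.Lib.TNF.AL.Sk
import Pool.Agent.Lib.TNF.AL.Main
import Pool.Agent.Lib.TATE.NI.Cnt
import Pool.Agent.Lib.TATE.NI.Cls
import Pool.Agent.Lib.TATE.NI.Inv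

/-! # PROJECT TNF, AL: all modules -/

set_option autoImplicit false

noncomputable section

namespace TNF.AL

open TATE

theorem aRig : S_Rig := tRig GA.cGA3 tIdt NI.tCnt (NI.tCls NI.tInv)

/-- **AL**. -/
theorem aAL : StmtAL :=
  tAL (tHtE2 tHtE) (tAvZ tFA3 tFA4) tCyf tRpl aRig tSk tAlg aNi tRep HS.aGcy3 HS.aKil HS.tTwo HS.aHS

end TNF.AL
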