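import Pool.Agent.Lib.TNF.AL.SpecR

/-!
# PROJECT TNF, package AL: the Lie algebras for given invariant forms (helper1)
-/

set_option autoImplicit false

open Topology Metric

noncomputable section

namespace TNF.AL

open HC HC.CC SEJ SEB SEQ TATE

/-- **HtE**: `TATE.S_Ht` for EVERY choice of the invariant Riemann forms. PROOF. As `TATE.tHt` (`gfw_of_MMx` holds for every `E` with `E.Z = N.Z`). -/
def S_HtE : Prop :=
  ∃ X : (p : ℕ) → Set (Fin p → ℂ), (∀ p, IsMeagre (X p)) ∧ ∀ (p : ℕ) (s : Fin p → ℂ), s ∉ X p →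
    ∀ (q : ℕ) (D : Dt p q), D.ok → ∀ (R : Fin q → AV) (Z : ∀ n, (R n).V → (R n).V),
    (∀ n, IsNew (R n) (D.m n) (Z n) (D.t s n) (D.b n)) →
    (∀ n n', n ≠ n' → ¬ Isg (R n) (R n')) →
    ∀ E : ∀ n, Cyc (R n) (D.m n), (∀ n v, (E n).Z v = Z n v) →
      (∀ n (u : (ZMod (D.m n))ˣ), (E n).p u =
        sg (D.m n) (D.r n) (D.b n) (u : ZMod (D.m n)).val) ∧
      ∀ h, HLieT E h → ∀ X : Tup R, (∀ n, IsSU (E n) (X n)) → X ∈ Submodule.span ℝ (ComT h)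

/-- **HtE2**: TWO POINTS. From S_HtE. PROOF. As `TATE.tHt2`. -/
def S_HtE2 : Prop :=
  ∀ p : ℕ, ∃ X : Set ((Fin p → ℂ) × (Fin p → ℂ)), IsMeagre X ∧ ∀ x ∉ X, ∀ (q q' : ℕ)
    (D : Dt p q) (D' : Dt p q'), D.ok → D'.ok → ∀ (R : Fin q → AV) (R' : Fin q' → AV)
    (Z : ∀ n, (R n).V → (R n).V) (Z' : ∀ n, (R' n).V → (R' n).V),
    (∀ n, IsNew (R n) (D.m n) (Z n) (D.t x.1 n) (D.b n)) →
    (∀ n, IsNew (R' n) (D'.m n) (Z' n) (D'.t x.2 n) (D'.b n)) →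
    (∀ n n', n ≠ n' → ¬ Isg (R n) (R n')) → (∀ n n', n ≠ n' → ¬ Isg (R' n) (R' n')) →
    (∀ n n', ¬ Isg (R n) (R' n')) →
    ∀ (E : ∀ n, Cyc (R n) (D.m n)) (E' : ∀ n, Cyc (R' n) (D'.m n)),
      (∀ n v, (E n).Z v = Z n v) → (∀ n v, (E' n).Z v = Z' n v) →
      ∀ h, HLP E E' h → ∀ X : Tup R, (∀ n, IsSU (E n) (X n)) →
        ((X, 0) : Tup R × Tup R') ∈ Submodule.span ℝ h

end TNF.AL
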