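import Pool.Agent.Lib.TNF.Iface
import Pool.Agent.Lib.TNF.HS.Spec
import Pool.Agent.Lib.TNF.AL.SpecH

/-!
# PROJECT TNF, package AL (note 4967, section 5): classes in finite flat families are algebraic

`s` is any injective point, `s₁` a very general point near `s`.  The isogenies between the new parts at `s₁` extend to `s` (`S_Rig`, SpecR);
the Lie algebras `u(E)` for the Riemann forms of `FamD` are flat, so a class `c` at `s` whose transport to `s₁` is killed by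
`∏ su` (HS: `S_Kil`) is killed by the commutators of the elements of `∏ u` at `s` (`S_Sk`): the second part of `HC.CC.Main`
(any branch points) applies at `s` (`S_Alg`).

Modules: file `TNF/AL/Xyz.lean`, `theorem tXyz : S_Xyz` (namespace `TNF.AL`); if the docstring says `From S_A, S_B` the theorem is
`tXyz : S_A → S_B → S_Xyz`.  Auxiliary lemmas in `namespace TNF.AL.Xyz_aux`.  Import only this file (and the file named in the docstring).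
-/

set_option autoImplicit false

open Topology Metric

noncomputable section

namespace TNF.AL

open HC HC.CC SEJ SEB SEQ TATE TNF.HS

/-! ## 1. The new parts and their Riemann forms -/

/-- **AvZ**: as `TATE.S_Av`, the isomorphisms `κ` commute with the automorphisms.  From StmtFA3, StmtFA4.  PROOF.  As `TATE.tAv`: `κ (Z v) = Zd (κ v)`
is the first part of the conclusion of `StmtFA3`. -/
def S_AvZ : Prop :=
  ∀ (p N : ℕ) (D : Dt p N) (s : Fin p → ℂ), D.ok → Function.Injective s →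
    ∃ (J : Fin N → AV) (Z : ∀ n, (J n).V → (J n).V)
      (κ : ∀ n, (J n).V ≃ₗ[ℂ] (Ix (D.m n) (D.b n) → ℂ)),
      (∀ n, IsNew (J n) (D.m n) (Z n) (D.t s n) (D.b n)) ∧
      (∀ n v, κ n (Z n v) = Zd (D.m n) (D.b n) (κ n v)) ∧
      ∀ n, κ n '' {v | Rt (J n) v} = LQ (D.m n) (D.b n) (D.t s n)

/-- **Cyf**: THE RIEMANN FORM OF `FamD` as a `Cyc`.  PROOF.  `Z` is complex linear (`IsCy`), preserves the lattice, `Φ_m(Z) = 0` (third part of `IsCy`: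
`Polynomial.aeval_eq_sum_range`, `natDegree = φ(m) ≤ m`; compare SE/CC/Cy.lean).  `ψ(u, v) = k E_t(κ u, κ v)`: `κ` maps a `ℤ`-basis `e_i` of `J.L` into `LQ`
(`Rt`: `k = 1`), so the `E_t(κ e_i, κ e_l)` are rational (`Φ.rat`), `k` = a common denominator; `alt`, `cpx`, `pos`, `inv` from `Φ`. -/
def S_Cyf : Prop :=
  ∀ (m r : ℕ) (b : Fin (r + 1) → ℕ) (Φ : FamD m b) (t : Fin (r + 1) → ℂ), Function.Injective t →
    ∀ (J : AV) (Z : J.V → J.V) (κ : J.V ≃ₗ[ℂ] (Ix m b → ℂ)), IsCy J m Z →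
    (∀ v, κ (Z v) = Zd m b (κ v)) → κ '' {v | Rt J v} = LQ m b t →
    ∃ (k : ℕ) (E : Cyc J m), k ≠ 0 ∧ (∀ v, E.Z v = Z v) ∧
      ∀ u v, E.ψ u v = k * Φ.E t (κ u) (κ v)

/-! ## 2. Back to `s` -/

/-- **Sk**: THE LIE ALGEBRA AT `s`.  Here `R i` are the factors at `s`, `R₁ i` those at `s₁`, `φ n`, `η i` the transports.  PROOF.
`Y₁ i = η_i [P_i, Q_i] η_i⁻¹`.  `IsSU (E₁ i) (Y₁ i)`: `P¹ = η P η⁻¹` commutes with `E₁.Z` and is skew for `E₁.ψ` (`x ≠ 0`), the same for `Q¹`; `[P¹, Q¹]` is in `IsU`;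
`tr ([P¹, Q¹] Z^k) = 0` as `P¹` commutes with `Z^k` and `tr (A B) = tr (B A)` (`LinearMap.trace_mul_comm`).  `θ₁ n (A₁ Y₁ (φ w) n) = Y₁ (θ₁ n (φ n (w n))) =
Y₁ (η (θ n (w n))) = η ([P, Q] (θ n (w n))) = η (θ n (Y w n)) = θ₁ n (φ n (Y w n))`: so `A₁ Y₁ ∘ φ = φ ∘ Y`.  `der Y c a = der (A₁ Y₁) (psh φ c) (a ∘ φ⁻¹)`
(compare `TATE.Main_aux.der_psh`, TATE/Asm/Main.lean), which is zero. -/
def S_Sk : Prop :=
  ∀ (N q : ℕ) (K : Fin N → Type) [∀ n, NormedAddCommGroup (K n)] [∀ n, NormedSpace ℂ (K n)]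
    (R R₁ : Fin q → AV) (m : Fin q → ℕ) (E : ∀ i, Cyc (R i) (m i)) (E₁ : ∀ i, Cyc (R₁ i) (m i))
    (j : Fin N → Fin q) (θ : ∀ n, K n ≃ₗ[ℂ] (R (j n)).V) (θ₁ : ∀ n, K n ≃ₗ[ℂ] (R₁ (j n)).V)
    (φ : ∀ n, K n ≃ₗ[ℝ] K n) (η : ∀ i, (R i).V ≃ₗ[ℝ] (R₁ i).V),
    (∀ i v, η i ((E i).Z v) = (E₁ i).Z (η i v)) →
    (∀ i, ∃ x : ℝ, x ≠ 0 ∧ ∀ u v, (E₁ i).ψ (η i u) (η i v) = x * (E i).ψ u v) →
    (∀ n v, θ₁ n (φ n v) = η (j n) (θ n v)) →
    ∀ (A₁ : Tup R₁ → ((∀ n, K n) →ₗ[ℝ] (∀ n, K n))),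
    (∀ X v n, θ₁ n (A₁ X v n) = X (j n) (θ₁ n (v n))) →
    ∀ (d : ℕ) (c : Cl (∀ n, K n) d),
    (∀ X : Tup R₁, (∀ i, IsSU (E₁ i) (X i)) → ∀ a,
      der (A₁ X) (psh (LinearEquiv.piCongrRight φ : (∀ n, K n) →ₗ[ℝ] (∀ n, K n)) c) a = 0) →
    ∀ P Q : Tup R, (∀ i, IsU (E i) (P i)) → (∀ i, IsU (E i) (Q i)) →
    ∀ Y : (∀ n, K n) →ₗ[ℝ] (∀ n, K n),
    (∀ v n, θ n (Y v n) = P (j n) (Q (j n) (θ n (v n))) - Q (j n) (P (j n) (θ n (v n)))) →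
    ∀ a, der Y c a = 0

/-- **Alg**: THE SECOND PART OF `HC.CC.Main`.  PROOF.  As `TATE.tCc` (TATE/Asm/Cc.lean; `Cc_aux.nul`, `Cc_aux.nul_cm`), with `p = 0` (a meagre set of the one point space
is empty), `A = B` = the zero variety, `N' = 0`, `q, N, J = R, j`, `Z i = (E i).Z`, `E i = (E i).ψ`, `f = 0`, `g`.  `IsFc`: `IsCv` from `Cvb` and injectivity.  `IsPl` from
the fields of `Cyc`.  `SUK`: for `P, Q` in `IsLf` (real linear functions: elements of `Tup R`) and `X` as in `SUK`, `X` is real linear (`g` is linear and injective),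
call it `Y`; `Kil`: `a' i = a i ∘ Y`. -/
def S_Alg : Prop :=
  HC.CC.Main → ∀ (T : AV) (q N : ℕ) (R : Fin q → AV) (j : Fin N → Fin q) (m r : Fin q → ℕ)
    (t : ∀ i, Fin (r i + 1) → ℂ) (b : ∀ i, Fin (r i + 1) → ℕ) (E : ∀ i, Cyc (R i) (m i)),
    (∀ i, Cvb (m i) (b i)) → (∀ i, Function.Injective (t i)) →
    (∀ i, IsNew (R i) (m i) (fun v => (E i).Z v) (t i) (b i)) →
    ∀ g : ∀ n, T.V →ₗ[ℂ] (R (j n)).V, (Function.Bijective fun v n => g n v) →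
    (∀ v, Rt T v → ∀ n, Rt (R (j n)) (g n v)) →
    ∀ (d : ℕ) (c : Hlg T d), Rtc {v | In T v} c → (∀ a, der (jm T.V) c a = 0) →
    (∀ P Q : Tup R, (∀ i, IsU (E i) (P i)) → (∀ i, IsU (E i) (Q i)) → ∀ Y : T.V →ₗ[ℝ] T.V,
      (∀ v n, g n (Y v) = P (j n) (Q (j n) (g n v)) - Q (j n) (P (j n) (g n v))) →
      ∀ a, der Y c a = 0) → AlgC T d c

/-! **Main**: `StmtAL`.  From S_HtE2, S_AvZ, S_Cyf, S_Rpl, S_Rig, S_Sk, S_Alg, S_Ni, S_Rep and HS: S_Gcy3, S_Kil, S_Two, StmtHS (helper30). -/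

end TNF.AL
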