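import Pool.Agent.Lib.TNF.HS.Spec
import Pool.Agent.Lib.TATE.NI.Spec

/-!
# PROJECT TNF, package AL: isogenies near `s` are isogenies at `s` (note 4967, section 5) (helper1)

Modules: file `TNF/AL/Xyz.lean`, `theorem tXyz : S_Xyz` (namespace `TNF.AL`).
-/

set_option autoImplicit false

open Topology Metric

noncomputable section

namespace TNF.AL

open HC HC.CC SEJ SEB SEQ TATE

/-- **Idt**: IDENTITY THEOREM for the complex structures along a path. PROOF. `x ↦ Λ (J(x) v) - J'(x) (Λ v)` (`J`, `J'` the complex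
structures `Jt`) is real analytic in `x ∈ I` (`τ t₀ (t z) v` is holomorphic in `z`; the inverse of an analytic family of linear
isomorphisms is analytic), it vanishes near `x₁`, `I` is connected. -/
def S_Idt : Prop :=
  ∀ (m r m' r' : ℕ) (b : Fin (r + 1) → ℕ) (b' : Fin (r' + 1) → ℕ) (Φ : FamD m b)
    (Φ' : FamD m' b') (t₀ : Fin (r + 1) → ℂ) (t₀' : Fin (r' + 1) → ℂ)
    (Λ : (Ix m b → ℂ) ≃ₗ[ℝ] (Ix m' b' → ℂ)), Function.Injective t₀ → Function.Injective t₀' →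
    ∀ (U : Set ℂ) (t : ℂ → (Fin (r + 1) → ℂ)) (t' : ℂ → (Fin (r' + 1) → ℂ)), IsOpen U →
    DifferentiableOn ℂ t U → DifferentiableOn ℂ t' U →
    (∀ z ∈ U, t z ∈ ball t₀ (Φ.ρ t₀) ∧ t' z ∈ ball t₀' (Φ'.ρ t₀')) →
    IsPreconnected {x : ℝ | (x : ℂ) ∈ U} → ∀ x₀ x₁ : ℝ, (x₀ : ℂ) ∈ U → (x₁ : ℂ) ∈ U →
    (∀ᶠ x : ℝ in 𝓝 x₁, (t x, t' x) ∈ NI.CL Φ Φ' t₀ t₀' Λ) →
    (t x₀, t' x₀) ∈ NI.CL Φ Φ' t₀ t₀' Λ

/-- **Rig**: RIGIDITY. From StmtGA3, S_Idt, NI.S_Cnt, NI.S_Cls. For `s₁` near `s`, outside a meagre set: the isogenies between the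
factors at `s₁`, transported to `s`, are complex linear. PROOF. Countably many real lattice maps `Λ` (`S_Cnt`), `C_Λ ⊆ ball s ε` relatively
closed (`S_Cls`); `StmtGA3`: outside a meagre set `s₁ ∈ C_Λ` implies that `C_Λ` is a neighbourhood of `s₁`; `S_Idt` on the line from `s` to `s₁`. -/
def S_Rig : Prop :=
  ∀ (Φ : FF) (p N : ℕ) (D : Dt p N) (h : D.ok) (s : Fin p → ℂ), Function.Injective s →
    ∃ ε > 0, ∃ X : Set (Fin p → ℂ), IsMeagre X ∧ ∀ s₁ ∈ ball s ε, s₁ ∉ X → ∀ (n n' : Fin N)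
      (ψ : (Ix (D.m n) (D.b n) → ℂ) ≃ₗ[ℂ] (Ix (D.m n') (D.b n') → ℂ)),
      ψ '' LQ (D.m n) (D.b n) (D.t s₁ n) = LQ (D.m n') (D.b n') (D.t s₁ n') →
      ∃ ψ₀ : (Ix (D.m n) (D.b n) → ℂ) ≃ₗ[ℂ] (Ix (D.m n') (D.b n') → ℂ),
        ψ₀ '' LQ (D.m n) (D.b n) (D.t s n) = LQ (D.m n') (D.b n') (D.t s n') ∧
        ∀ v, ψ ((Φ _ _ _ (h.cv n)).τ (D.t s n) (D.t s₁ n) v) =
          (Φ _ _ _ (h.cv n')).τ (D.t s n') (D.t s₁ n') (ψ₀ v)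

/-- **Rpl**: THE REPRESENTATION (`TATE.S_Rp` with the lattices). PROOF. As `TATE.tRp`. -/
def S_Rpl : Prop :=
  ∀ (p N : ℕ) (D : Dt p N) (s : Fin p → ℂ) (J : Fin N → AV)
    (κ : ∀ n, (J n).V ≃ₗ[ℂ] (Ix (D.m n) (D.b n) → ℂ)),
    (∀ n, κ n '' {v | Rt (J n) v} = LQ (D.m n) (D.b n) (D.t s n)) →
    ∀ (q : ℕ) (R : Fin q → AV) (j : Fin N → Fin q), (∀ n, Isg (J n) (R (j n))) →
    ∃ (θ : ∀ n, (Ix (D.m n) (D.b n) → ℂ) ≃ₗ[ℂ] (R (j n)).V) (A : Tup R → (D.V →ₗ[ℝ] D.V)),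
      (∀ n, θ n '' LQ (D.m n) (D.b n) (D.t s n) = {v | Rt (R (j n)) v}) ∧
      (∀ X v n, θ n (A X v n) = X (j n) (θ n (v n))) ∧ IsRp (D.L s) A

end TNF.AL
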